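import Pool.Agent.Helper89.HY.St2
import Pool.Agent.Helper28.SP.M_DIM
import Pool.Agent.Helper28.SP.M_EIG
import Pool.Agent.Helper28.SP.M_GEN
import Pool.Agent.Helper28.SP.M_KER
import Pool.Agent.Helper28.SP.M_LA
import Pool.Agent.Helper28.SP.M_LAM
import Pool.Agent.Helper28.SP.M_LEVEL
import Pool.Agent.Helper28.SP.M_PROD
import Pool.Agent.Helper28.SP.M_SURJ
import Pool.Agent.Helper28.SP.M_SYM
import Pool.Agent.Helper28.SP.M_TJ
import Pool.Agent.Helper28.SP.M_CARD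
import Pool.Agent.Helper28.SP.M_CHAR
import Pool.Agent.Helper28.SP.M_TR
import Pool.Agent.Helper28.SP.M_Q
import Pool.Agent.Helper28.SP.M_NPW
import Pool.Agent.Helper28.SP.M_FOLD
import Pool.Agent.Helper28.SP.M_MP

/-! # HY2 (MP_e188f1_nt): module HMN -/

set_option autoImplicit false

namespace Pool.Agent.Helper22.HY

open Finset Matrix
open Pool.Agent.Helper28.SP
open Pool.Agent.Helper56.SW (τ Γ N stSqrt)
open Pool.Agent.Helper89.HY (StHMN)

private theorem level : StLEVEL := by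
  have hS : StSURJ := SURJ.thm
  have hK : StKER := KER.thm hS
  have hG : StGEN := GEN.thm hK hS
  have hP : StPROD := PROD.thm hK hS
  have hL : StLAM := LAM.thm
  have hCHAR : StCHAR := CHAR.thm hG hK hS
  have hTR : StTR := TR.thm hL hK hS
  have hQ : StQ := Q.thm hL hK hP hS
  have hD : StDIM := DIM.thm hCHAR
  have hTJ : StTJ := TJ.thm LA.thm EIG.thm LAM.thm hD hTR hQ
  exact LEVEL.thm hTJ CARD.thm

private theorem terms3 (A B e c K : ℝ) (hA : 1 ≤ A) (hAB : A ≤ B) (he : 1 ≤ e) (hec : e ≤ c)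
    (hK : 1 ≤ K) (hBK : B ≤ K * c) :
    e ^ 4 / (min (2 * A) e * min (2 * B) e) ^ 3 ≤ 1 / e + K ^ 3 * c ^ 4 / (A * B) ^ 3 := by
  have hB : 1 ≤ B := hA.trans hAB
  have hc : 1 ≤ c := he.trans hec
  have hK3 : 1 ≤ K ^ 3 := one_le_pow₀ hK
  have hT : 0 ≤ K ^ 3 * c ^ 4 / (A * B) ^ 3 := by positivity
  have he0 : 0 < 1 / e := by positivity
  rcases le_or_gt e (2 * A) with h | h
  · rw [min_eq_right h, min_eq_right (h.trans (by linarith))]
    have t1 : e ^ 4 / (e * e) ^ 3 ≤ 1 / e := by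
      rw [div_le_div_iff₀ (by positivity) (by positivity)]
      have : e ^ 5 ≤ e ^ 6 := pow_le_pow_right₀ he (by norm_num)
      calc e ^ 4 * e = e ^ 5 := by ring
        _ ≤ e ^ 6 := this
        _ = 1 * (e * e) ^ 3 := by ring
    linarith
  · rw [min_eq_left h.le]
    rcases le_or_gt e (2 * B) with h' | h'
    · rw [min_eq_right h']
      have t1 : e ^ 4 / (2 * A * e) ^ 3 ≤ K ^ 3 * c ^ 4 / (A * B) ^ 3 := by
        calc e ^ 4 / (2 * A * e) ^ 3 = e / (2 * A) ^ 3 := by field_simp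
          _ ≤ c / A ^ 3 := by
            gcongr
            linarith
          _ ≤ K ^ 3 * c ^ 4 / (A * B) ^ 3 := by
            rw [div_le_div_iff₀ (by positivity) (by positivity)]
            calc c * (A * B) ^ 3 = c * A ^ 3 * B ^ 3 := by ring
              _ ≤ c * A ^ 3 * (K * c) ^ 3 := by gcongr
              _ = K ^ 3 * c ^ 4 * A ^ 3 := by ring
      linarith
    · rw [min_eq_left h'.le]
      have t1 : e ^ 4 / (2 * A * (2 * B)) ^ 3 ≤ K ^ 3 * c ^ 4 / (A * B) ^ 3 := by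
        calc e ^ 4 / (2 * A * (2 * B)) ^ 3 ≤ c ^ 4 / (A * B) ^ 3 := by
              have : A * B ≤ 2 * A * (2 * B) := by
                have : 0 ≤ A * B := by positivity
                linarith
              gcongr
          _ ≤ K ^ 3 * c ^ 4 / (A * B) ^ 3 := by
              gcongr
              exact le_mul_of_one_le_left (by positivity) hK3
      linarith

private theorem lev (K D : ℝ) (hK : 1 ≤ K) (hD : 1 ≤ D) (c e : ℕ) (a b : ℤ)
    (A B : ℕ) (hc : 1 ≤ c) (hA : 1 ≤ A) (hAB : A ≤ B)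
    (hBK : (B : ℝ) ≤ K * c) (hec : e ∣ c)
    (hn : ∀ A' B' : ℕ, 1 ≤ A' → A' ≤ B' → B' ≤ e →
      (N e a b 3 A' B' : ℝ) ≤ D * (((A' : ℝ) * B') ^ 3 / (e : ℝ) ^ 3 + (e : ℝ) ^ 2)) :
    (W (sP A B) (wP a b) e 3 1 : ℝ) * (e : ℝ) ^ 2 ≤
      (1458 * D) * (((2 * (A : ℝ) + 1) * (2 * B + 1)) ^ 2) ^ 3 *
        (1 / e + K ^ 3 * (c : ℝ) ^ 4 / ((A : ℝ) * B) ^ 3) := by
  have he : 1 ≤ e := Nat.pos_of_dvd_of_pos hec hc
  have hle : e ≤ c := Nat.le_of_dvd hc hec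
  have hw := NPW.thm' e a b 3 A B he (by omega)
  have hf := FOLD.thm e a b 3 (2 * A) (2 * B) he (by omega) (by omega)
  have hn := hn (min (2 * A) e) (min (2 * B) e) (by omega) (by omega) (by omega)
  have ht := terms3 (A : ℝ) B e c K (by exact_mod_cast hA) (by exact_mod_cast hAB)
    (by exact_mod_cast he) (by exact_mod_cast hle) hK hBK
  push_cast at hf hn
  set x : ℝ := min (2 * (A : ℝ)) e with hx
  set y : ℝ := min (2 * (B : ℝ)) e with hy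
  set N1 : ℝ := (N e a b 3 (2 * A) (2 * B) : ℝ) with hN1
  set N2 : ℝ := (N e a b 3 (min (2 * A) e) (min (2 * B) e) : ℝ) with hN2
  set W1 : ℝ := (W (sP A B) (wP a b) e 3 1 : ℝ) with hW1
  set T : ℝ := K ^ 3 * (c : ℝ) ^ 4 / ((A : ℝ) * B) ^ 3 with hT
  have hA0 : (1 : ℝ) ≤ A := by exact_mod_cast hA
  have hB0 : (1 : ℝ) ≤ B := hA0.trans (by exact_mod_cast hAB)
  have he0 : (1 : ℝ) ≤ e := by exact_mod_cast he
  have hx0 : 0 < x := by rw [hx]; exact lt_min (by linarith) (by linarith)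
  have hy0 : 0 < y := by rw [hy]; exact lt_min (by linarith) (by linarith)
  have hT0 : 0 ≤ T := by rw [hT]; positivity
  set P : ℝ := (2 * (A : ℝ) + 1) * (2 * B + 1) with hP
  have hP0 : 0 < P := by rw [hP]; positivity
  have h36 : 36 * ((A : ℝ) * B) ≤ 9 * P := by
    rw [hP]
    have : (2 * (A : ℝ) + 1) * (2 * B + 1) = 4 * (A * B) + 2 * A + 2 * B + 1 := by ring
    rw [this]
    linarith
  clear_value x y N1 N2 W1 T P
  calc W1 * (e : ℝ) ^ 2 ≤ (P ^ 3 * N1) * (e : ℝ) ^ 2 := by gcongr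
    _ ≤ (P ^ 3 * ((3 * (2 * (A : ℝ)) / x) ^ 3 * (3 * (2 * (B : ℝ)) / y) ^ 3 * N2)) *
          (e : ℝ) ^ 2 := by gcongr
    _ ≤ (P ^ 3 * ((3 * (2 * (A : ℝ)) / x) ^ 3 * (3 * (2 * (B : ℝ)) / y) ^ 3 *
          (D * ((x * y) ^ 3 / (e : ℝ) ^ 3 + (e : ℝ) ^ 2)))) * (e : ℝ) ^ 2 := by gcongr
    _ = P ^ 3 * (36 * ((A : ℝ) * B)) ^ 3 * D * (1 / e + (e : ℝ) ^ 4 / (x * y) ^ 3) := by
      field_simp
      ring
    _ ≤ P ^ 3 * (9 * P) ^ 3 * D * (1 / e + (1 / e + T)) := by gcongr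
    _ ≤ P ^ 3 * (9 * P) ^ 3 * D * (2 * (1 / e + T)) := by
      apply mul_le_mul_of_nonneg_left _ (by positivity)
      linarith
    _ = (1458 * D) * (P ^ 2) ^ 3 * (1 / e + T) := by ring

theorem hHMN : StHMN := by
  intro r K hr hK
  refine ⟨2 * 4 ^ (r + 1) * 1458 ^ r * 36 ^ r * K ^ r, by positivity, ?_⟩
  intro n a b A B D hn ha hb hA hAB hBK hD hN
  have hA0 : (1 : ℝ) ≤ A := by exact_mod_cast hA
  have hB0 : (1 : ℝ) ≤ B := hA0.trans (by exact_mod_cast hAB)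
  have hn0 : (1 : ℝ) ≤ n := by exact_mod_cast hn
  have hnp : (0 : ℝ) < n := by linarith
  obtain ⟨sc, hsc⟩ := MP.scal SURJ.thm n hn
  obtain ⟨-, hsym, hpos⟩ := SYM.thm a b A B
  set P : ℝ := (2 * (A : ℝ) + 1) * (2 * B + 1) with hP
  have hP0 : 0 < P := by rw [hP]; positivity
  set t : ℝ := K ^ 3 * (n : ℝ) ^ 4 / ((A : ℝ) * B) ^ 3 with ht
  have ht0 : 0 ≤ t := by rw [ht]; positivity
  have hlev := level 3 r _ (sP A B) (wP a b) hsym (by omega) hr (Or.inr hpos) n (P ^ 2)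
    (1458 * D) t hn (by positivity) (by positivity) ht0 (by
      intro e he
      exact lev K D hK hD n e a b A B hn hA hAB hBK (Nat.dvd_of_mem_divisors he) (hN e he))
  have hnp2 := NPW.thm n a b r A B sc hn (by omega) hsc
  have htau0 : 0 ≤ τ n := by unfold τ; positivity
  have hG : ((Γ n).card : ℝ) ≤ 2 * τ n := stSqrt n hn
  push_cast at hlev
  set X : ℝ := (4 * τ n ^ 2) ^ (r + 1) * (1458 * D) ^ ((r : ℝ) / 3) * (P ^ 2) ^ r / (n : ℝ) ^ 3 *
        (1 + n * t ^ ((r : ℝ) / 3)) with hX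
  have hX0 : 0 ≤ X := by rw [hX]; positivity
  have hsum : ∑ x ∈ Γ n, (W (sP A B) (wP a b) n r (sc x) : ℝ) ≤ 2 * τ n * X := by
    calc ∑ x ∈ Γ n, (W (sP A B) (wP a b) n r (sc x) : ℝ) ≤ ∑ x ∈ Γ n, X :=
          sum_le_sum fun x _ => hlev (sc x)
      _ = (Γ n).card * X := by rw [sum_const, nsmul_eq_mul]
      _ ≤ 2 * τ n * X := by gcongr
  have hNN := hnp2.trans hsum
  set Q : ℝ := ((A : ℝ) + 1) * ((B : ℝ) + 1) with hQ
  have hQ0 : 0 < Q := by rw [hQ]; positivity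
  have hPQ : P ^ 2 ≤ 36 * ((A : ℝ) * B) * Q := by
    have e1 : (2 * (A : ℝ) + 1) ^ 2 ≤ 6 * A * (A + 1) := by nlinarith
    have e2 : (2 * (B : ℝ) + 1) ^ 2 ≤ 6 * B * (B + 1) := by nlinarith
    calc P ^ 2 = (2 * (A : ℝ) + 1) ^ 2 * (2 * (B : ℝ) + 1) ^ 2 := by rw [hP]; ring
      _ ≤ (6 * (A : ℝ) * (A + 1)) * (6 * (B : ℝ) * (B + 1)) := by gcongr
      _ = 36 * ((A : ℝ) * B) * Q := by rw [hQ]; ring
  have hDr : (1458 * D) ^ ((r : ℝ) / 3) ≤ 1458 ^ r * D ^ r := by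
    rw [← mul_pow, ← Real.rpow_natCast (1458 * D) r]
    apply Real.rpow_le_rpow_of_exponent_le (by linarith)
    have : (0 : ℝ) ≤ r := by positivity
    linarith
  have htr : ((A : ℝ) * B) ^ r / (n : ℝ) ^ 3 * (n * t ^ ((r : ℝ) / 3)) =
      K ^ r * (n : ℝ) ^ ((4 * (r : ℝ) - 6) / 3) := by
    have hAB0 : (0 : ℝ) < (A : ℝ) * B := by positivity
    have hKp : (0 : ℝ) < K := by linarith
    have e1 : t ^ ((r : ℝ) / 3) = K ^ r * (n : ℝ) ^ ((4 * (r : ℝ)) / 3) / ((A : ℝ) * B) ^ r := by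
      rw [ht, Real.div_rpow (by positivity) (by positivity),
        Real.mul_rpow (by positivity) (by positivity)]
      have e2 : (K ^ 3) ^ ((r : ℝ) / 3) = K ^ r := by
        rw [← Real.rpow_natCast K 3, ← Real.rpow_mul hKp.le, ← Real.rpow_natCast K r]
        congr 1
        push_cast
        ring
      have e3 : ((n : ℝ) ^ 4) ^ ((r : ℝ) / 3) = (n : ℝ) ^ ((4 * (r : ℝ)) / 3) := by
        rw [← Real.rpow_natCast (n : ℝ) 4, ← Real.rpow_mul hnp.le]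
        congr 1
        push_cast
        ring
      have e4 : (((A : ℝ) * B) ^ 3) ^ ((r : ℝ) / 3) = ((A : ℝ) * B) ^ r := by
        rw [← Real.rpow_natCast ((A : ℝ) * B) 3, ← Real.rpow_mul hAB0.le,
          ← Real.rpow_natCast ((A : ℝ) * B) r]
        congr 1
        push_cast
        ring
      rw [e2, e3, e4]
    have e5 : (n : ℝ) ^ ((4 * (r : ℝ)) / 3) = (n : ℝ) ^ ((4 * (r : ℝ) - 6) / 3) * (n : ℝ) ^ 2 := by
      rw [← Real.rpow_natCast (n : ℝ) 2, ← Real.rpow_add hnp]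
      congr 1
      push_cast
      ring
    rw [e1, e5]
    field_simp
  have hKr : 1 ≤ K ^ r := one_le_pow₀ hK
  have key : 2 * τ n * X ≤ (2 * 4 ^ (r + 1) * 1458 ^ r * 36 ^ r * K ^ r) * τ n ^ (2 * r + 3) *
      D ^ r * (((A : ℝ) * B) ^ r / (n : ℝ) ^ 3 + (n : ℝ) ^ ((4 * (r : ℝ) - 6) / 3)) * Q ^ r := by
    have hPr : (P ^ 2) ^ r ≤ (36 * ((A : ℝ) * B) * Q) ^ r :=
      pow_le_pow_left₀ (by positivity) hPQ r
    have hpos2 : 0 ≤ 1 + n * t ^ ((r : ℝ) / 3) := by positivity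
    calc 2 * τ n * X ≤ 2 * τ n * ((4 * τ n ^ 2) ^ (r + 1) * (1458 ^ r * D ^ r) *
          (36 * ((A : ℝ) * B) * Q) ^ r / (n : ℝ) ^ 3 * (1 + n * t ^ ((r : ℝ) / 3))) := by
          rw [hX]
          gcongr
      _ = (2 * 4 ^ (r + 1) * 1458 ^ r * 36 ^ r) * τ n ^ (2 * r + 3) * D ^ r *
          (((A : ℝ) * B) ^ r / (n : ℝ) ^ 3 +
            ((A : ℝ) * B) ^ r / (n : ℝ) ^ 3 * (n * t ^ ((r : ℝ) / 3))) * Q ^ r := by
          rw [mul_pow _ Q, mul_pow (36 : ℝ), mul_pow 4]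
          ring
      _ = (2 * 4 ^ (r + 1) * 1458 ^ r * 36 ^ r) * τ n ^ (2 * r + 3) * D ^ r *
          (((A : ℝ) * B) ^ r / (n : ℝ) ^ 3 +
            K ^ r * (n : ℝ) ^ ((4 * (r : ℝ) - 6) / 3)) * Q ^ r := by rw [htr]
      _ ≤ (2 * 4 ^ (r + 1) * 1458 ^ r * 36 ^ r) * τ n ^ (2 * r + 3) * D ^ r *
          (K ^ r * (((A : ℝ) * B) ^ r / (n : ℝ) ^ 3) +
            K ^ r * (n : ℝ) ^ ((4 * (r : ℝ) - 6) / 3)) * Q ^ r := by
          gcongr
          exact le_mul_of_one_le_left (by positivity) hKr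
      _ = _ := by ring
  have hfinal := hNN.trans key
  exact le_of_mul_le_mul_right hfinal (by positivity)

end Pool.Agent.Helper22.HY
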