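import Pool.Agent.Helper89.HY.St

/-!
# HY (MP_e188f1_nt), module WB: Cauchy-Schwarz and the degenerate frequencies
-/

set_option autoImplicit false

noncomputable section

namespace Pool.Agent.Helper22.HY

open Finset Matrix
open Pool.Agent.Helper89.HY
open Pool.Agent.Helper56.SW (Tm Sm Nq N)

private lemma ad_norm (p : ℕ) [Fact p.Prime] (x : ZMod p) : ‖ad p x‖ = 1 := by
  unfold ad
  exact AddChar.norm_apply _ _

private lemma ad_zero (p : ℕ) [Fact p.Prime] : ad p 0 = 1 := by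
  unfold ad
  exact AddChar.map_zero_eq_one _

private lemma ad_add (p : ℕ) [Fact p.Prime] (x y : ZMod p) :
    ad p (x + y) = ad p x * ad p y := by
  unfold ad
  exact AddChar.map_add_eq_mul _ _ _

private lemma ad_sum (p : ℕ) [Fact p.Prime] (A : ZMod p) (hA : A ≠ 0) :
    ∑ u : ZMod p, ad p (A * u) = 0 := by
  have h := AddChar.sum_mulShift (R' := ℂ) (ψ := ZMod.stdAddChar (N := p)) A
    (ZMod.isPrimitive_stdAddChar p)
  rw [if_neg hA] at h
  unfold ad
  rw [← Nat.cast_zero, ← h]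
  exact Finset.sum_congr rfl (fun u _ => by rw [mul_comm])

private lemma inner_sum (p : ℕ) [Fact p.Prime] (n u : ZMod p) (hu : u ≠ 0) (f : ZMod p → ℂ) :
    ∑ v : ZMod p, (if u * v = n then f v else 0) = f (n / u) := by
  rw [Finset.sum_eq_single (n / u)]
  · rw [if_pos (by field_simp)]
  · intro b _ hb
    rw [if_neg]
    intro h
    apply hb
    rw [← h]
    field_simp
  · intro h
    exact absurd (mem_univ _) h

private lemma KS_le (p : ℕ) [Fact p.Prime] (A B n : ZMod p) : ‖KS p A B n‖ ≤ 2 * (p : ℝ) := by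
  have h1 : ∀ u : ZMod p, ‖∑ v : ZMod p, (if u * v = n then ad p (A * u + B * v) else 0)‖ ≤
      1 + (if u = 0 then (p : ℝ) else 0) := by
    intro u
    by_cases hu : u = 0
    · rw [if_pos hu]
      have h2 : ‖∑ v : ZMod p, (if u * v = n then ad p (A * u + B * v) else 0)‖ ≤
          ∑ v : ZMod p, (1 : ℝ) := by
        apply norm_sum_le_of_le
        intro v _
        by_cases hv : u * v = n
        · rw [if_pos hv, ad_norm]
        · rw [if_neg hv, norm_zero]
          exact zero_le_one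
      have h3 : ∑ v : ZMod p, (1 : ℝ) = p := by
        rw [Finset.sum_const, Finset.card_univ, ZMod.card, nsmul_eq_mul, mul_one]
      rw [h3] at h2
      linarith
    · rw [inner_sum p n u hu (fun v => ad p (A * u + B * v)), ad_norm, if_neg hu]
      linarith
  calc ‖KS p A B n‖ ≤ ∑ u : ZMod p, (1 + (if u = 0 then (p : ℝ) else 0)) := by
        unfold KS
        exact norm_sum_le_of_le _ (fun u _ => h1 u)
    _ = 2 * (p : ℝ) := by
        rw [Finset.sum_add_distrib, Finset.sum_ite_eq', if_pos (mem_univ _), Finset.sum_const,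
          Finset.card_univ, ZMod.card, nsmul_eq_mul, mul_one]
        ring

private lemma KS_zero (p : ℕ) [Fact p.Prime] (n : ZMod p) :
    KS p 0 0 n = ((p : ℂ) - 1) + (if n = 0 then (p : ℂ) else 0) := by
  have h0 : KS p 0 0 n = ∑ u : ZMod p, ∑ v : ZMod p, (if u * v = n then (1 : ℂ) else 0) := by
    unfold KS
    apply Finset.sum_congr rfl
    intro u _
    apply Finset.sum_congr rfl
    intro v _
    rw [zero_mul, zero_mul, add_zero, ad_zero]
  rw [h0, ← Finset.sum_erase_add _ _ (mem_univ (0 : ZMod p))]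
  have h1 : ∑ u ∈ univ.erase (0 : ZMod p), ∑ v : ZMod p, (if u * v = n then (1 : ℂ) else 0) =
      (p : ℂ) - 1 := by
    rw [Finset.sum_congr rfl (g := fun _ => (1 : ℂ)) (fun u hu =>
      inner_sum p n u (Finset.ne_of_mem_erase hu) (fun _ => (1 : ℂ)))]
    rw [Finset.sum_const, Finset.card_erase_of_mem (mem_univ _), Finset.card_univ, ZMod.card,
      nsmul_eq_mul, mul_one, Nat.cast_sub (Nat.Prime.one_le Fact.out), Nat.cast_one]
  have h2 : ∑ v : ZMod p, (if (0 : ZMod p) * v = n then (1 : ℂ) else 0) =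
      (if n = 0 then (p : ℂ) else 0) := by
    by_cases hn : n = 0
    · rw [if_pos hn, hn]
      simp only [zero_mul, if_true]
      rw [Finset.sum_const, Finset.card_univ, ZMod.card, nsmul_eq_mul, mul_one]
    · rw [if_neg hn]
      apply Finset.sum_eq_zero
      intro v _
      rw [if_neg]
      rw [zero_mul]
      exact fun h => hn h.symm
  rw [h1, h2]

private lemma KS_sum (p : ℕ) [Fact p.Prime] (A B : ZMod p) (h : A ≠ 0 ∨ B ≠ 0) :
    ∑ n : ZMod p, KS p A B n = 0 := by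
  have h1 : ∑ n : ZMod p, KS p A B n =
      (∑ u : ZMod p, ad p (A * u)) * (∑ v : ZMod p, ad p (B * v)) := by
    unfold KS
    rw [Finset.sum_comm, Finset.sum_mul]
    apply Finset.sum_congr rfl
    intro u _
    rw [Finset.sum_comm, Finset.mul_sum]
    apply Finset.sum_congr rfl
    intro v _
    rw [Finset.sum_ite_eq, if_pos (mem_univ _), ad_add]
  rw [h1]
  rcases h with h | h
  · rw [ad_sum p A h, zero_mul]
  · rw [ad_sum p B h, mul_zero]

/-- the substitution `c' = - γ c` -/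
private lemma subst (p : ℕ) [Fact p.Prime] (γ : ZMod p) (hγ : γ ^ 2 = 1) {E : Type}
    [AddCommMonoid E] (f : ZMod p → E) :
    ∑ c ∈ univ.erase (0 : ZMod p), f (-γ * c) = ∑ c ∈ univ.erase (0 : ZMod p), f c := by
  have hγ0 : γ ≠ 0 := by
    rintro rfl
    rw [zero_pow two_ne_zero] at hγ
    exact zero_ne_one hγ
  refine Finset.sum_bij' (fun c _ => -γ * c) (fun c _ => -γ * c) ?_ ?_ ?_ ?_ ?_
  · intro c hc
    exact Finset.mem_erase.mpr ⟨mul_ne_zero (neg_ne_zero.mpr hγ0) (Finset.ne_of_mem_erase hc),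
      mem_univ _⟩
  · intro c hc
    exact Finset.mem_erase.mpr ⟨mul_ne_zero (neg_ne_zero.mpr hγ0) (Finset.ne_of_mem_erase hc),
      mem_univ _⟩
  · intro c _
    linear_combination c * hγ
  · intro c _
    linear_combination c * hγ
  · intro c _
    rfl

private lemma KS_sum' (p : ℕ) [Fact p.Prime] (γ : ZMod p) (hγ : γ ^ 2 = 1) (A B : ZMod p)
    (h : A ≠ 0 ∨ B ≠ 0) :
    ∑ c ∈ univ.erase (0 : ZMod p), KS p A B (1 + (-γ * c)) = - KS p A B 1 := by
  rw [subst p γ hγ (fun c => KS p A B (1 + c))]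
  have h1 : ∑ c : ZMod p, KS p A B (1 + c) = 0 := by
    rw [← KS_sum p A B h]
    exact Equiv.sum_comp (Equiv.addLeft (1 : ZMod p)) (fun n => KS p A B n)
  rw [← Finset.sum_erase_add _ _ (mem_univ (0 : ZMod p))] at h1
  rw [add_zero] at h1
  exact eq_neg_of_add_eq_zero_left h1

private lemma degen (p : ℕ) [Fact p.Prime] (γ : ZMod p) (hγ : γ ^ 2 = 1) (A B : ZMod p)
    (h : A ≠ 0 ∨ B ≠ 0) :
    ‖∑ c ∈ univ.erase (0 : ZMod p), KS p 0 0 (1 + c) * KS p A B (1 + (-γ * c))‖ ≤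
      4 * (p : ℝ) ^ 2 := by
  have hp1 : (1 : ℝ) ≤ p := by
    exact_mod_cast Nat.Prime.one_le (Fact.out : p.Prime)
  have h1 : ∑ c ∈ univ.erase (0 : ZMod p), KS p 0 0 (1 + c) * KS p A B (1 + (-γ * c)) =
      ((p : ℂ) - 1) * (- KS p A B 1) + (p : ℂ) * KS p A B (1 + (-γ * (-1))) := by
    rw [← KS_sum' p γ hγ A B h, Finset.mul_sum]
    have h2 : (p : ℂ) * KS p A B (1 + (-γ * (-1))) =
        ∑ c ∈ univ.erase (0 : ZMod p), (if c = -1 then (p : ℂ) * KS p A B (1 + (-γ * c)) else 0) := by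
      rw [Finset.sum_ite_eq', if_pos]
      exact Finset.mem_erase.mpr ⟨neg_ne_zero.mpr one_ne_zero, mem_univ _⟩
    rw [h2, ← Finset.sum_add_distrib]
    apply Finset.sum_congr rfl
    intro c _
    rw [KS_zero]
    by_cases hc : c = -1
    · rw [if_pos hc, if_pos (by rw [hc]; ring)]
      ring
    · rw [if_neg hc, if_neg (fun h => hc (by linear_combination h))]
      ring
  rw [h1]
  have h3 := KS_le p A B 1
  have h4 := KS_le p A B (1 + (-γ * (-1)))
  have h5 : ‖(p : ℂ) - 1‖ ≤ p := by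
    have : (p : ℂ) - 1 = (((p : ℝ) - 1 : ℝ) : ℂ) := by push_cast; ring
    rw [this, Complex.norm_real, Real.norm_eq_abs, abs_of_nonneg (by linarith)]
    linarith
  calc ‖((p : ℂ) - 1) * (- KS p A B 1) + (p : ℂ) * KS p A B (1 + (-γ * (-1)))‖
      ≤ ‖(p : ℂ) - 1‖ * ‖KS p A B 1‖ + ‖(p : ℂ)‖ * ‖KS p A B (1 + (-γ * (-1)))‖ := by
        refine (norm_add_le _ _).trans ?_
        rw [norm_mul, norm_mul, norm_neg]
    _ ≤ (p : ℝ) * (2 * p) + (p : ℝ) * (2 * p) := by
        have h6 : ‖(p : ℂ)‖ = p := by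
          rw [Complex.norm_natCast]
        rw [h6]
        have h7 := mul_le_mul h5 h3 (norm_nonneg _) (by linarith)
        have h8 := mul_le_mul_of_nonneg_left h4 (by linarith : (0 : ℝ) ≤ p)
        linarith
    _ = 4 * (p : ℝ) ^ 2 := by ring

private lemma generic (hK : StKM) (p : ℕ) [Fact p.Prime] (γ : ZMod p) (hγ : γ ^ 2 = 1)
    (m : Fin 6 → ZMod p) (h1 : m 0 ≠ 0 ∨ m 1 ≠ 0 ∨ m 2 ≠ 0 ∨ m 3 ≠ 0)
    (h2 : m 3 ≠ 0 ∨ m 4 ≠ 0 ∨ m 5 ≠ 0 ∨ m 0 ≠ 0) :
    ‖∑ c ∈ univ.erase (0 : ZMod p),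
      KS p (m 1 + m 3 / c) (m 2 + m 0 / c) (1 + c) *
        KS p (m 4 + m 0 / (-γ * c)) (m 5 + m 3 / (-γ * c)) (1 + (-γ * c))‖ ≤
      16 * (p : ℝ) ^ 2 := by
  have hA := hK p (m 0) (m 1) (m 2) (m 3) h1
  have hB := hK p (m 3) (m 4) (m 5) (m 0) h2
  rw [← subst p γ hγ (fun c => ‖KS p (m 4 + m 0 / c) (m 5 + m 3 / c) (1 + c)‖ ^ 2)] at hB
  calc ‖∑ c ∈ univ.erase (0 : ZMod p),
      KS p (m 1 + m 3 / c) (m 2 + m 0 / c) (1 + c) *
        KS p (m 4 + m 0 / (-γ * c)) (m 5 + m 3 / (-γ * c)) (1 + (-γ * c))‖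
      ≤ ∑ c ∈ univ.erase (0 : ZMod p),
        (‖KS p (m 1 + m 3 / c) (m 2 + m 0 / c) (1 + c)‖ ^ 2 / 2 +
        ‖KS p (m 4 + m 0 / (-γ * c)) (m 5 + m 3 / (-γ * c)) (1 + (-γ * c))‖ ^ 2 / 2) := by
        apply norm_sum_le_of_le
        intro c _
        rw [norm_mul]
        have := sq_nonneg (‖KS p (m 1 + m 3 / c) (m 2 + m 0 / c) (1 + c)‖ -
          ‖KS p (m 4 + m 0 / (-γ * c)) (m 5 + m 3 / (-γ * c)) (1 + (-γ * c))‖)
        linarith [this, sub_sq (‖KS p (m 1 + m 3 / c) (m 2 + m 0 / c) (1 + c)‖)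
          (‖KS p (m 4 + m 0 / (-γ * c)) (m 5 + m 3 / (-γ * c)) (1 + (-γ * c))‖)]
    _ ≤ 16 * (p : ℝ) ^ 2 := by
        rw [Finset.sum_add_distrib, ← Finset.sum_div, ← Finset.sum_div]
        linarith

theorem hWB (hK : StKM) (hP : StPAR) : StWB := by
  intro p _ γ hγ
  have hp1 : (1 : ℝ) ≤ p := by
    exact_mod_cast Nat.Prime.one_le (Fact.out : p.Prime)
  have hp2 : (0 : ℝ) ≤ (p : ℝ) ^ 2 := by positivity
  constructor
  · have h := hP p γ hγ 0
    have h1 : ∑ x ∈ Vg p γ, ad p (∑ i, (0 : Fin 6 → ZMod p) i * x i) = ((Vg p γ).card : ℂ) := by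
      simp only [Pi.zero_apply, zero_mul, Finset.sum_const_zero, ad_zero]
      rw [Finset.sum_const, nsmul_eq_mul, mul_one]
    rw [h1] at h
    have h2 : ‖∑ c ∈ univ.erase (0 : ZMod p),
      KS p ((0 : Fin 6 → ZMod p) 1 + (0 : Fin 6 → ZMod p) 3 / c)
        ((0 : Fin 6 → ZMod p) 2 + (0 : Fin 6 → ZMod p) 0 / c) (1 + c) *
        KS p ((0 : Fin 6 → ZMod p) 4 + (0 : Fin 6 → ZMod p) 0 / (-γ * c))
          ((0 : Fin 6 → ZMod p) 5 + (0 : Fin 6 → ZMod p) 3 / (-γ * c)) (1 + (-γ * c))‖ ≤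
        4 * (p : ℝ) ^ 3 := by
      calc _ ≤ ∑ c ∈ univ.erase (0 : ZMod p), (2 * (p : ℝ)) * (2 * p) := by
            apply norm_sum_le_of_le
            intro c _
            rw [norm_mul]
            exact mul_le_mul (KS_le _ _ _ _) (KS_le _ _ _ _) (norm_nonneg _) (by linarith)
        _ ≤ 4 * (p : ℝ) ^ 3 := by
            rw [Finset.sum_const, Finset.card_erase_of_mem (mem_univ _), Finset.card_univ,
              ZMod.card, nsmul_eq_mul, Nat.cast_sub (Nat.Prime.one_le Fact.out), Nat.cast_one]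
            have : (0 : ℝ) ≤ 4 * (p : ℝ) ^ 2 := by positivity
            calc ((p : ℝ) - 1) * (2 * p * (2 * p)) = 4 * (p : ℝ) ^ 3 - 4 * (p : ℝ) ^ 2 := by ring
              _ ≤ _ := by linarith
    have h3 : ‖((Vg p γ).card : ℂ)‖ = (Vg p γ).card := Complex.norm_natCast _
    rw [← h3]
    have h4 := norm_sub_norm_le ((Vg p γ).card : ℂ) (∑ c ∈ univ.erase (0 : ZMod p),
      KS p ((0 : Fin 6 → ZMod p) 1 + (0 : Fin 6 → ZMod p) 3 / c)
        ((0 : Fin 6 → ZMod p) 2 + (0 : Fin 6 → ZMod p) 0 / c) (1 + c) *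
        KS p ((0 : Fin 6 → ZMod p) 4 + (0 : Fin 6 → ZMod p) 0 / (-γ * c))
          ((0 : Fin 6 → ZMod p) 5 + (0 : Fin 6 → ZMod p) 3 / (-γ * c)) (1 + (-γ * c)))
    have h5 : (p : ℝ) ^ 2 ≤ (p : ℝ) ^ 3 := pow_le_pow_right₀ hp1 (by norm_num)
    linarith
  · intro m hm
    have h := hP p γ hγ m
    have key : ‖∑ c ∈ univ.erase (0 : ZMod p),
        KS p (m 1 + m 3 / c) (m 2 + m 0 / c) (1 + c) *
          KS p (m 4 + m 0 / (-γ * c)) (m 5 + m 3 / (-γ * c)) (1 + (-γ * c))‖ ≤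
        16 * (p : ℝ) ^ 2 := by
      by_cases h1 : m 0 ≠ 0 ∨ m 1 ≠ 0 ∨ m 2 ≠ 0 ∨ m 3 ≠ 0
      · by_cases h2 : m 3 ≠ 0 ∨ m 4 ≠ 0 ∨ m 5 ≠ 0 ∨ m 0 ≠ 0
        · exact generic hK p γ hγ m h1 h2
        · push Not at h2
          obtain ⟨e3, e4, e5, e0⟩ := h2
          have h3 : m 1 ≠ 0 ∨ m 2 ≠ 0 := by
            rcases h1 with h1 | h1 | h1 | h1
            · exact absurd e0 h1
            · exact Or.inl h1
            · exact Or.inr h1
            · exact absurd e3 h1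
          have h4 := degen p γ hγ (m 1) (m 2) h3
          have h5 : ∑ c ∈ univ.erase (0 : ZMod p),
              KS p (m 1 + m 3 / c) (m 2 + m 0 / c) (1 + c) *
                KS p (m 4 + m 0 / (-γ * c)) (m 5 + m 3 / (-γ * c)) (1 + (-γ * c)) =
              ∑ c ∈ univ.erase (0 : ZMod p), KS p 0 0 (1 + c) *
                KS p (m 1) (m 2) (1 + (-γ * c)) := by
            rw [← subst p γ hγ (fun c => KS p 0 0 (1 + c) * KS p (m 1) (m 2) (1 + (-γ * c)))]
            apply Finset.sum_congr rfl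
            intro c _
            rw [e0, e3, e4, e5]
            have e6 : -γ * (-γ * c) = c := by linear_combination c * hγ
            simp only [zero_div, add_zero, e6]
            ring
          rw [h5]
          linarith
      · push Not at h1
        obtain ⟨e0, e1, e2, e3⟩ := h1
        have h3 : m 4 ≠ 0 ∨ m 5 ≠ 0 := by
          by_contra h3
          push Not at h3
          obtain ⟨e4, e5⟩ := h3
          apply hm
          funext i
          fin_cases i
          · exact e0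
          · exact e1
          · exact e2
          · exact e3
          · exact e4
          · exact e5
        have h4 := degen p γ hγ (m 4) (m 5) h3
        simp only [e0, e1, e2, e3, zero_div, add_zero]
        linarith
    have h6 := norm_sub_norm_le (∑ x ∈ Vg p γ, ad p (∑ i, m i * x i))
      (∑ c ∈ univ.erase (0 : ZMod p),
        KS p (m 1 + m 3 / c) (m 2 + m 0 / c) (1 + c) *
          KS p (m 4 + m 0 / (-γ * c)) (m 5 + m 3 / (-γ * c)) (1 + (-γ * c)))
    linarith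

end Pool.Agent.Helper22.HY
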